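import Pool.Agent.H18.PB.Skel2
import Pool.Agent.H80.KS6.Skel

/-!
# Structural spread of the fans for `m = 3` from the case of one-dimensional fans

`neg_base`: a claim of the form `¬ Q`, where `Q` is hereditary, holds without stability. So the
freedom `ψ` of the spread is uniform in the class.
-/

set_option autoImplicit false

namespace Pool.Agent.H36.PB

open Finset Real
open Pool.PB Pool.Agent.H49.Ent Pool.Agent.H32.Dense Pool.STK Pool.KA Pool.KSAT Pool.K2S Pool.S6K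

variable {m : ℕ}

/-- Claims of the form `¬ Q` with `Q` hereditary hold for all events which are not too small. -/
theorem neg_base {S : FCl m} {Q : ∀ J : ℕ, ∀ F : Fam m J, (F.Ω → Prop) → Prop}
    (hQ : ∀ J F, Hered (Q J F)) (h : Clg S (fun J F A => ¬ Q J F A)) :
    ∃ c : ℝ, 0 < c ∧ ∃ J₁ : ℕ, ∀ J ≥ J₁, ∀ (F : Fam m J) (A : F.Ω → Prop), S.St c F A →
      ¬ Q J F A := by
  obtain ⟨c, hc, J₁, h1⟩ := h.win 1 one_pos
  refine ⟨c, hc, J₁, fun J hJ F A hS hA => ?_⟩
  obtain ⟨B, hB, -, h2⟩ := h1 J hJ F A hS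
  exact h2 (hQ J F A B hB hA)

/-- The chart of a line. -/
theorem line_chart {u v D : Fin m → ℝ} {c r : ℝ} {i : Fin m} (hi : ∀ j, |v j| ≤ |v i|)
    (hD : ∀ j, |D j - u j - c * v j| ≤ r) (j : Fin m) :
    |v j / v i| ≤ 1 ∧ |D j - v j / v i * D i - (u j - v j / v i * u i)| ≤ 2 * r := by
  have h1 : |v j / v i| ≤ 1 := by
    rw [abs_div]
    exact div_le_one_of_le₀ (hi j) (abs_nonneg _)
  refine ⟨h1, ?_⟩
  have h2 : v j - v j / v i * v i = 0 := by
    by_cases h : v i = 0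
    · have h3 := hi j
      rw [h, abs_zero] at h3
      have h4 : v j = 0 := abs_nonpos_iff.1 h3
      rw [h4]
      ring
    · rw [div_mul_cancel₀ _ h, sub_self]
  have h3 : D j - v j / v i * D i - (u j - v j / v i * u i) =
      (D j - u j - c * v j) - v j / v i * (D i - u i - c * v i) +
        c * (v j - v j / v i * v i) := by ring
  rw [h3, h2, mul_zero, add_zero]
  refine (abs_sub _ _).trans ?_
  rw [abs_mul]
  have h4 := hD j
  have h5 := hD i
  have h6 : |v j / v i| * |D i - u i - c * v i| ≤ 1 * r :=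
    mul_le_mul h1 h5 (abs_nonneg _) zero_le_one
  linarith

/-- One of `m` parts of an event is large. -/
theorem exists_part {Ω : Type} [Fintype Ω] {p : Ω → ℝ} (B : Ω → Prop)
    (f : Ω → Fin m) (hm : 0 < m) : ∃ i, Pe p B / m ≤ Pe p (fun ω => B ω ∧ f ω = i) := by
  classical
  by_contra hcon
  push Not at hcon
  have h1 : ∑ i, Pe p (fun ω => B ω ∧ f ω = i) = Pe p B := by
    simp only [Pe_eq]
    rw [Finset.sum_comm]
    refine Finset.sum_congr rfl fun ω _ => ?_
    rw [Finset.sum_eq_single (f ω)]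
    · simp
    · intro i _ hi
      rw [if_neg fun h => hi h.2.symm]
    · intro h
      exact absurd (Finset.mem_univ _) h
  have h2 : ∑ i : Fin m, Pe p (fun ω => B ω ∧ f ω = i) < ∑ _i : Fin m, Pe p B / m := by
    have : Nonempty (Fin m) := ⟨⟨0, hm⟩⟩
    exact Finset.sum_lt_sum_of_nonempty Finset.univ_nonempty fun i _ => hcon i
  rw [h1, Finset.sum_const, Finset.card_univ, Fintype.card_fin, nsmul_eq_mul] at h2
  have hm0 : (m : ℝ) ≠ 0 := by positivity
  rw [mul_div_cancel₀ _ hm0] at h2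
  exact lt_irrefl _ h2

/-- If the directions are near affine lines, then on a large part they are near lines in a chart. -/
theorem lineAt_part {Ω U : Type} [Fintype Ω] {p : Ω → ℝ} (hm : 0 < m) {r : ℝ} {pt : Ω → U}
    {d : Ω → Fin m → ℝ} {B : Ω → Prop} (h : PlU 1 r pt d B) :
    ∃ i : Fin m, ∃ B' : Ω → Prop, Sub B' B ∧ Pe p B / m ≤ Pe p B' ∧
      LineAt i (2 * r) pt d B' := by
  classical
  obtain ⟨ζ, hζ⟩ := h
  have : Nonempty (Fin m) := ⟨⟨0, hm⟩⟩
  have hex : ∀ y : U, ∃ i : Fin m, ∀ j, |(ζ y).2 0 j| ≤ |(ζ y).2 0 i| := fun y => by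
    obtain ⟨i, -, hi⟩ := Finset.exists_max_image Finset.univ (fun j => |(ζ y).2 0 j|)
      Finset.univ_nonempty
    exact ⟨i, fun j => hi j (Finset.mem_univ _)⟩
  choose ch hch using hex
  obtain ⟨i, hi⟩ := exists_part (p := p) B (fun ω => ch (pt ω)) hm
  refine ⟨i, fun ω => B ω ∧ ch (pt ω) = i, fun ω hω => hω.1, hi,
    fun y j => (ζ y).2 0 j / (ζ y).2 0 (ch y),
    fun y j => (ζ y).1 j - (ζ y).2 0 j / (ζ y).2 0 (ch y) * (ζ y).1 (ch y), ?_, ?_⟩
  · intro ω hω j
    obtain ⟨c, hc⟩ := hζ ω hω.1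
    exact (line_chart (c := c 0) (D := d ω) (hch (pt ω)) (fun j => by
      have := hc j
      simpa using this) j).1
  · intro ω hω j
    obtain ⟨c, hc⟩ := hζ ω hω.1
    have h1 := (line_chart (c := c 0) (D := d ω) (r := r) (hch (pt ω)) (fun j => by
      have := hc j
      simpa using this) j).2
    rw [hω.2] at h1 ⊢
    exact h1

/-- If no large event has one-dimensional fans, then the fans are spread. -/
theorem sps_one {S : FCl m} (hm : 0 < m)
    (h : ∀ h₁ : ℝ, 0 < h₁ → ∀ i₀ : Fin m, Clg S (fun J F A => ¬ Lb F i₀ ⌊h₁ * J⌋₊ A)) :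
    SPS S 1 := by
  classical
  intro g hg
  have h1 : Clg S (fun J F A => ¬ ∃ i₀ : Fin m, Lb F i₀ ⌊g / 2 * J⌋₊ A) := by
    refine Clg.mono (J₂ := 0) (Clg.finite fun i₀ : Fin m => h (g / 2) (by linarith) i₀) ?_
    rintro J - F A h2 ⟨i₀, h3⟩
    exact h2 i₀ h3
  obtain ⟨c, hc, J₁, h2⟩ := neg_base (Q := fun J F A => ∃ i₀ : Fin m, Lb F i₀ ⌊g / 2 * J⌋₊ A)
    (fun J F => by
      rintro A B hB ⟨i₀, h3⟩
      exact ⟨i₀, LineAt.hered _ _ _ _ A B hB h3⟩) h1
  have hmr : (0 : ℝ) < m := by exact_mod_cast hm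
  obtain ⟨J₂, hJ₂⟩ := exists_nat_gt (Real.log m / (c / 3) + 4 / g)
  refine ⟨c / 3, by linarith, Clg.of (τ := c / 3) (by linarith) (max J₁ J₂)
    fun J hJ F A hS B hB hP hpl => ?_⟩
  have k1 : J ≥ J₁ := (le_max_left _ _).trans hJ
  have k2 : Real.log m / (c / 3) + 4 / g < J :=
    hJ₂.trans_le (by exact_mod_cast (le_max_right _ _).trans hJ)
  have hlog : 0 ≤ Real.log m := Real.log_nonneg (by exact_mod_cast hm)
  have q1 : 0 ≤ Real.log m / (c / 3) := by positivity
  have q2 : 0 < 4 / g := by positivity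
  have hJ0 : (0 : ℝ) < J := by linarith
  have k3 : Real.log m ≤ c / 3 * J := by
    have : Real.log m / (c / 3) ≤ J := by linarith
    rw [div_le_iff₀ (by linarith)] at this
    linarith
  have k4 : ⌊g / 2 * J⌋₊ + 1 ≤ ⌊g * J⌋₊ := by
    have e1 : 4 < J * g := by
      have : 4 / g < J := by linarith
      rwa [div_lt_iff₀ hg] at this
    have e2 : (⌊g / 2 * J⌋₊ : ℝ) ≤ g / 2 * J := Nat.floor_le (by positivity)
    refine Nat.le_floor ?_
    push_cast
    linarith
  obtain ⟨i, B', hB', hPB', hL⟩ := lineAt_part (p := F.p) hm hpl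
  refine h2 J k1 F B' ⟨S.mono (by linarith) hS.1, ?_⟩ ⟨i, ?_⟩
  · refine le_trans ?_ hPB'
    rw [le_div_iff₀ hmr]
    refine le_trans ?_ hP
    have e1 : Real.exp (-(c / 3 * J)) * Real.exp (-(c / 3 * J)) ≤
        Real.exp (-(c / 3 * J)) * Pe F.p A :=
      mul_le_mul_of_nonneg_left hS.2 (Real.exp_pos _).le
    refine le_trans ?_ e1
    have e2 : (m : ℝ) ≤ Real.exp (c / 3 * J) := by
      rw [← Real.log_le_iff_le_exp hmr]
      exact k3
    have e3 : Real.exp (-(c / 3 * J)) * Real.exp (-(c / 3 * J)) =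
        Real.exp (-(c * J)) * Real.exp (c / 3 * J) := by
      rw [← Real.exp_add, ← Real.exp_add]
      congr 1
      ring
    rw [e3]
    exact mul_le_mul_of_nonneg_left e2 (Real.exp_pos _).le
  · obtain ⟨e, n, h3, h4⟩ := hL
    refine ⟨e, n, h3, fun ω hω j => (h4 ω hω j).trans ?_⟩
    have e1 : (2 : ℝ) * (1 / 2 ^ (⌊g / 2 * J⌋₊ + 1)) = 1 / 2 ^ ⌊g / 2 * J⌋₊ := by
      rw [pow_succ]
      field_simp
    rw [← e1]
    exact mul_le_mul_of_nonneg_left (one_div_le_one_div_of_le (by positivity)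
      (pow_le_pow_right₀ (by norm_num) k4)) (by norm_num)

/-- **Structural spread for `m = 3`** from the case of one-dimensional fans. -/
theorem sps_three (h6 : S6Stmt) : ∀ a R : ℝ, 1 < a → 0 < R → UBa 3 a R →
    SPS (FCl.mx 3 a R) (3 - 2) :=
  fun a R ha hR hU => sps_one (by norm_num) fun h₁ hh₁ i₀ =>
    clg_mx (h6 a R ha hR hU h₁ hh₁ i₀).clm

end Pool.Agent.H36.PB
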