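import Pool.Agent.H36.PB.SkelU
import Pool.Agent.H56.KPM.Sps
import Pool.Agent.H80.KS6.Ncw

/-!
# `K'(3)` from the modules, uniform form
-/

set_option autoImplicit false

namespace Pool.PB

open Finset Real
open Pool.Agent.H49.Ent Pool.Agent.H32.Dense Pool.STK Pool.KA Pool.KSAT Pool.K2S Pool.S6K

/-- **`K'(3)`** from `K'(2)`, the regimes alpha and beta, the lossy step, the slope law and the
end. Regime beta may use the leaf theorem. -/
theorem kp_three_unif (h2 : KP 2) (hAL : ALPHAStmt) (hBE : LEAFu 3 → BETAStmt)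
    (hSTP : STPu 3) (hSLP : SLPu 3)
    (hEND : ∀ a R : ℝ, 1 < a → 0 < R → UBa 3 a R → SPS (FCl.mx 3 a R) 1 →
      ENDS (FCl.mx 3 a R)) : KP 3 :=
  kp_three (s6_of_two h2 hAL (hBE (leaf_unif hSTP hSLP))) (fun S hS => stp_of_stpu hSTP S hS)
    (fun S hS => slp_of_slpu hSLP S hS) hEND

end Pool.PB
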